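import Pool.Agent.P8H49.GM.Stm

/-! Package AVG of project GM: the mean value of `gw ^ 6` in residue classes. -/

namespace Pool.Agent.P8H7.GM

open Finset Pool.Agent.P8H49.GM
open Pool.Agent.H373R2.T7 (pz Vz mem_pz)

/-- `(1 + 4 / p) ^ 6 - 1` -/
noncomputable def FF (p : ℕ) : ℝ := (1 + 4 / (p : ℝ)) ^ 6 - 1

theorem FF_nonneg (p : ℕ) : 0 ≤ FF p := by
  unfold FF
  have h : (0:ℝ) ≤ 4 / (p : ℝ) := by positivity
  have := one_le_pow₀ (n := 6) (show (1:ℝ) ≤ 1 + 4 / (p : ℝ) by linarith)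
  linarith

theorem FF_le (p : ℕ) (hp : 4 ≤ p) : FF p ≤ 252 / p := by
  unfold FF
  obtain ⟨x, hx⟩ : ∃ x : ℝ, x = 4 / (p : ℝ) := ⟨_, rfl⟩
  have hp4 : (4:ℝ) ≤ p := by exact_mod_cast hp
  have hx0 : 0 ≤ x := by rw [hx]; positivity
  have hx1 : x ≤ 1 := by rw [hx, div_le_one (by linarith)]; exact hp4
  have e : (252:ℝ) / p = 63 * x := by rw [hx]; ring
  rw [e, ← hx]
  have h2 : x ^ 2 ≤ x := by nlinarith
  have h3 : x ^ 3 ≤ x := by nlinarith [mul_nonneg hx0 (sub_nonneg.2 hx1), pow_nonneg hx0 2]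
  have h4 : x ^ 4 ≤ x := by nlinarith [pow_nonneg hx0 3]
  have h5 : x ^ 5 ≤ x := by nlinarith [pow_nonneg hx0 4]
  have h6 : x ^ 6 ≤ x := by nlinarith [pow_nonneg hx0 5]
  nlinarith

/-- the primes `w < p ≤ n` -/
def PP0 (w n : ℕ) : Finset ℕ := (pz n).filter (fun p => w < p)

theorem gw_six (w n m : ℕ) (hm : m ∈ Icc 1 n) : gw w m ^ 6 - 1 =
    ∑ S ∈ (PP0 w n).powerset.erase ∅, if ∀ p ∈ S, p ∣ m then ∏ p ∈ S, FF p else 0 := by
  classical
  rw [mem_Icc] at hm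
  have h1 : m.primeFactors.filter (fun p => w < p) = (PP0 w n).filter (fun p => p ∣ m) := by
    ext p
    rw [mem_filter, mem_filter, PP0, mem_filter, Nat.mem_primeFactors, mem_pz]
    constructor
    · rintro ⟨⟨h1, h2, h3⟩, h4⟩
      exact ⟨⟨⟨(Nat.le_of_dvd hm.1 h2).trans hm.2, h1⟩, h4⟩, h2⟩
    · rintro ⟨⟨⟨h1, h2⟩, h3⟩, h4⟩
      exact ⟨⟨h2, h4, by omega⟩, h3⟩
  have h2 : gw w m ^ 6 = ∏ p ∈ (PP0 w n).filter (fun p => p ∣ m), (1 + FF p) := by
    unfold gw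
    rw [h1, ← prod_pow]
    refine prod_congr rfl fun p _ => ?_
    unfold FF
    ring
  have h3 : ((PP0 w n).filter (fun p => p ∣ m)).powerset =
      (PP0 w n).powerset.filter (fun S => ∀ p ∈ S, p ∣ m) := by
    ext S
    rw [mem_powerset, mem_filter, mem_powerset]
    constructor
    · intro h
      exact ⟨fun p hp => (mem_filter.1 (h hp)).1, fun p hp => (mem_filter.1 (h hp)).2⟩
    · rintro ⟨h1, h2⟩ p hp
      exact mem_filter.2 ⟨h1 hp, h2 p hp⟩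
  rw [h2, prod_one_add, h3, sum_filter]
  rw [← sum_erase_add _ _ (empty_mem_powerset (PP0 w n))]
  simp

theorem WW_pos (w : ℕ) : 0 < WW w := by
  unfold WW
  exact prod_pos fun p hp => (mem_pz.1 hp).2.pos

theorem cop (w n : ℕ) (S : Finset ℕ) (hS : S ⊆ PP0 w n) : Nat.Coprime (∏ p ∈ S, p) (WW w) := by
  unfold WW
  refine Nat.Coprime.prod_left fun p hp => Nat.Coprime.prod_right fun q hq => ?_
  have h1 := hS hp
  rw [PP0, mem_filter, mem_pz] at h1
  have h2 := mem_pz.1 hq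
  exact (Nat.coprime_primes h1.1.2 h2.2).2 (by omega)

theorem class_card (q n r : ℕ) (hq : 0 < q) (T : Finset ℕ) (hT : T ⊆ Icc 1 n)
    (hc : ∀ a ∈ T, ∀ b ∈ T, a ≡ b [MOD q]) : (T.card : ℝ) ≤ n / q + 1 := by
  have h1 : T.card ≤ (range (n / q + 1)).card := by
    refine card_le_card_of_injOn (fun m => m / q) (fun m hm => ?_) fun a ha b hb hab => ?_
    · have := mem_Icc.1 (hT hm)
      simp only [coe_range, Set.mem_Iio]
      exact Nat.lt_succ_of_le (Nat.div_le_div_right this.2)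
    · have h2 : a % q = b % q := hc a ha b hb
      have h3 : a / q = b / q := hab
      rw [← Nat.div_add_mod a q, ← Nat.div_add_mod b q, h2, h3]
  rw [card_range] at h1
  calc (T.card : ℝ) ≤ ((n / q + 1 : ℕ) : ℝ) := by exact_mod_cast h1
    _ ≤ n / q + 1 := by
        push_cast
        have : ((n / q : ℕ) : ℝ) ≤ (n:ℝ) / q := Nat.cast_div_le
        linarith

theorem cnt (w n r : ℕ) (S : Finset ℕ) (hS : S ⊆ PP0 w n) :
    ((((Icc 1 n).filter (fun m => m ≡ r [MOD WW w])).filter (fun m => ∀ p ∈ S, p ∣ m)).card : ℝ) ≤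
      n / WW w * ∏ p ∈ S, (1 / (p : ℝ)) + √n * ∏ p ∈ S, (1 / √(p : ℝ)) := by
  classical
  obtain ⟨d, hd⟩ : ∃ d, d = ∏ p ∈ S, p := ⟨_, rfl⟩
  have hpr : ∀ p ∈ S, p.Prime := fun p hp => (mem_pz.1 (mem_filter.1 (hS hp)).1).2
  have hd0 : 0 < d := by rw [hd]; exact prod_pos fun p hp => (hpr p hp).pos
  have hW := WW_pos w
  have hcop : Nat.Coprime d (WW w) := by rw [hd]; exact cop w n S hS
  have hdr : (d : ℝ) = ∏ p ∈ S, (p : ℝ) := by rw [hd]; push_cast; rfl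
  have e1 : ∏ p ∈ S, (1 / (p : ℝ)) = 1 / d := by rw [hdr, prod_div_distrib, prod_const_one]
  have e2 : ∏ p ∈ S, (1 / √(p : ℝ)) = 1 / √d := by
    rw [hdr, prod_div_distrib, prod_const_one]
    congr 1
    clear hdr e1 hcop hd0 hd hS
    induction S using Finset.induction_on with
    | empty => simp
    | insert a s ha ih =>
      rw [prod_insert ha, prod_insert ha, Real.sqrt_mul (by positivity),
        ih fun p hp => hpr p (mem_insert_of_mem hp)]
  rw [e1, e2]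
  have hdvd : ∀ m ∈ ((Icc 1 n).filter (fun m => m ≡ r [MOD WW w])).filter (fun m => ∀ p ∈ S, p ∣ m),
      1 ≤ m ∧ m ≤ n ∧ m ≡ r [MOD WW w] ∧ d ∣ m := by
    intro m hm
    rw [mem_filter, mem_filter, mem_Icc] at hm
    refine ⟨hm.1.1.1, hm.1.1.2, hm.1.2, ?_⟩
    rw [hd]
    exact prod_primes_dvd m (fun p hp => (hpr p hp).prime) hm.2
  have hd0' : (0:ℝ) < d := by exact_mod_cast hd0
  have hW' : (0:ℝ) < WW w := by exact_mod_cast hW
  rcases Nat.lt_or_ge n d with hlt | hge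
  · have h0 : ((Icc 1 n).filter (fun m => m ≡ r [MOD WW w])).filter (fun m => ∀ p ∈ S, p ∣ m) = ∅ := by
      refine eq_empty_of_forall_notMem fun m hm => ?_
      obtain ⟨h1, h2, _, h3⟩ := hdvd m hm
      have := Nat.le_of_dvd h1 h3
      omega
    rw [h0, card_empty, Nat.cast_zero]
    positivity
  · have h1 := class_card (WW w * d) n r (Nat.mul_pos hW hd0) _
      (fun m hm => by
        obtain ⟨h1, h2, _, _⟩ := hdvd m hm
        exact mem_Icc.2 ⟨h1, h2⟩)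
      (fun a ha b hb => by
        obtain ⟨_, _, h3, h4⟩ := hdvd a ha
        obtain ⟨_, _, h5, h6⟩ := hdvd b hb
        refine (Nat.modEq_and_modEq_iff_modEq_mul hcop.symm).1 ⟨h3.trans h5.symm, ?_⟩
        exact ((Nat.modEq_zero_iff_dvd.2 h4).trans (Nat.modEq_zero_iff_dvd.2 h6).symm))
    refine h1.trans ?_
    have h2 : (1:ℝ) ≤ √n * (1 / √d) := by
      rw [mul_one_div, le_div_iff₀ (Real.sqrt_pos.2 hd0'), one_mul]
      exact Real.sqrt_le_sqrt (by exact_mod_cast hge)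
    have h3 : (n:ℝ) / ((WW w * d : ℕ) : ℝ) = n / WW w * (1 / d) := by
      push_cast
      field_simp
    rw [h3]
    linarith

theorem exp_sub_one_le (x : ℝ) : Real.exp x - 1 ≤ x * Real.exp x := by
  have h1 := Real.add_one_le_exp (-x)
  have h2 := Real.exp_pos x
  have h3 : Real.exp (-x) * Real.exp x = 1 := by rw [← Real.exp_add]; simp
  nlinarith

theorem prod_le_exp (s : Finset ℕ) (f : ℕ → ℝ) (hf : ∀ i ∈ s, 0 ≤ f i) :
    ∏ i ∈ s, (1 + f i) ≤ Real.exp (∑ i ∈ s, f i) := by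
  rw [Real.exp_sum]
  refine prod_le_prod (fun i hi => by linarith [hf i hi]) fun i _ => ?_
  linarith [Real.add_one_le_exp (f i)]

theorem PP0_sub (w n : ℕ) : PP0 w n ⊆ Ioc w n := by
  intro p hp
  rw [PP0, mem_filter, mem_pz] at hp
  rw [mem_Ioc]
  exact ⟨hp.2, hp.1.1⟩

theorem A1 (w n : ℕ) (hw : 3 ≤ w) :
    ∏ p ∈ PP0 w n, (1 + FF p * (1 / (p : ℝ))) - 1 ≤ 252 * Real.exp 84 / w := by
  have hw0 : (3:ℝ) ≤ w := by exact_mod_cast hw
  have h1 : ∑ p ∈ PP0 w n, FF p * (1 / (p : ℝ)) ≤ 252 / w := by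
    calc ∑ p ∈ PP0 w n, FF p * (1 / (p : ℝ)) ≤ ∑ p ∈ PP0 w n, 252 * ((p : ℝ) ^ 2)⁻¹ := by
          refine sum_le_sum fun p hp => ?_
          have h2 := (mem_Ioc.1 (PP0_sub w n hp)).1
          have h3 := FF_le p (by omega)
          have hp0 : (0:ℝ) ≤ 1 / p := by positivity
          calc FF p * (1 / (p : ℝ)) ≤ 252 / p * (1 / p) := mul_le_mul_of_nonneg_right h3 hp0
            _ = 252 * ((p : ℝ) ^ 2)⁻¹ := by ring
      _ ≤ ∑ p ∈ Ioc w n, 252 * ((p : ℝ) ^ 2)⁻¹ :=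
          sum_le_sum_of_subset_of_nonneg (PP0_sub w n) fun p _ _ => by positivity
      _ = 252 * ∑ p ∈ Ioc w n, ((p : ℝ) ^ 2)⁻¹ := by rw [mul_sum]
      _ ≤ 252 * (w : ℝ)⁻¹ := by
          refine mul_le_mul_of_nonneg_left ?_ (by norm_num)
          rcases le_total w n with h | h
          · have := sum_Ioc_inv_sq_le_sub (α := ℝ) (show w ≠ 0 by omega) h
            have h2 : (0:ℝ) ≤ (n:ℝ)⁻¹ := by positivity
            linarith
          · rw [Ioc_eq_empty (by omega), sum_empty]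
            positivity
      _ = 252 / w := by ring
  have h2 := prod_le_exp (PP0 w n) (fun p => FF p * (1 / (p : ℝ)))
    fun p _ => mul_nonneg (FF_nonneg p) (by positivity)
  have h3 : (252:ℝ) / w ≤ 84 := by
    rw [div_le_iff₀ (by linarith)]
    linarith
  have h4 : Real.exp (∑ p ∈ PP0 w n, FF p * (1 / (p : ℝ))) ≤ Real.exp (252 / w) :=
    Real.exp_le_exp.2 h1
  have h5 := exp_sub_one_le (252 / w)
  have h6 : Real.exp (252 / w) ≤ Real.exp 84 := Real.exp_le_exp.2 h3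
  have h7 : (0:ℝ) ≤ 252 / w := by positivity
  calc ∏ p ∈ PP0 w n, (1 + FF p * (1 / (p : ℝ))) - 1 ≤ Real.exp (252 / w) - 1 := by linarith
    _ ≤ 252 / w * Real.exp (252 / w) := h5
    _ ≤ 252 / w * Real.exp 84 := mul_le_mul_of_nonneg_left h6 h7
    _ = 252 * Real.exp 84 / w := by ring

theorem A2 : ∃ E : ℝ, 0 < E ∧ ∀ w n : ℕ, 3 ≤ w →
    ∏ p ∈ PP0 w n, (1 + FF p * (1 / √(p : ℝ))) ≤ E := by
  have hs : Summable fun m : ℕ => ((m : ℝ) ^ (3 / 2 : ℝ))⁻¹ :=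
    Real.summable_nat_rpow_inv.2 (by norm_num)
  refine ⟨Real.exp (252 * ∑' m : ℕ, ((m : ℝ) ^ (3 / 2 : ℝ))⁻¹), Real.exp_pos _, fun w n hw => ?_⟩
  refine (prod_le_exp (PP0 w n) (fun p => FF p * (1 / √(p : ℝ)))
    fun p _ => mul_nonneg (FF_nonneg p) (by positivity)).trans (Real.exp_le_exp.2 ?_)
  calc ∑ p ∈ PP0 w n, FF p * (1 / √(p : ℝ)) ≤ ∑ p ∈ PP0 w n, 252 * ((p : ℝ) ^ (3 / 2 : ℝ))⁻¹ := by
        refine sum_le_sum fun p hp => ?_
        have h2 := (mem_Ioc.1 (PP0_sub w n hp)).1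
        have h3 := FF_le p (by omega)
        have hp0 : (0:ℝ) < p := by exact_mod_cast (by omega : 0 < p)
        have e : (p : ℝ) ^ (3 / 2 : ℝ) = p * √p := by
          rw [Real.sqrt_eq_rpow, show (3 / 2 : ℝ) = 1 + 1 / 2 by norm_num, Real.rpow_add hp0,
            Real.rpow_one]
        rw [e]
        calc FF p * (1 / √(p : ℝ)) ≤ 252 / p * (1 / √p) :=
              mul_le_mul_of_nonneg_right h3 (by positivity)
          _ = 252 * ((p : ℝ) * √p)⁻¹ := by rw [mul_inv]; ring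
    _ = 252 * ∑ p ∈ PP0 w n, ((p : ℝ) ^ (3 / 2 : ℝ))⁻¹ := by rw [mul_sum]
    _ ≤ _ := mul_le_mul_of_nonneg_left
        (hs.sum_le_tsum _ fun m _ => by positivity) (by norm_num)

theorem t_avg : S_AVG := by
  classical
  obtain ⟨E, hE0, hE⟩ := A2
  refine ⟨252 * Real.exp 84 + 1, by positivity, fun w hw => ?_⟩
  have hW := WW_pos w
  have hW' : (0:ℝ) < WW w := by exact_mod_cast hW
  have hw0 : (3:ℝ) ≤ w := by exact_mod_cast hw
  refine ⟨⌈(E * WW w * w) ^ 2⌉₊, fun n hn r => ?_⟩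
  have hn' : (E * WW w * w) ^ 2 ≤ n := (Nat.le_ceil _).trans (by exact_mod_cast hn)
  have hsq : E * WW w * w ≤ √n := Real.le_sqrt_of_sq_le hn'
  have hn0 : (0:ℝ) ≤ n := by positivity
  have hmain : ∑ m ∈ (Icc 1 n).filter (fun m => m ≡ r [MOD WW w]), (gw w m ^ 6 - 1) ≤
      ∑ S ∈ (PP0 w n).powerset.erase ∅, (∏ p ∈ S, FF p) *
        (n / WW w * ∏ p ∈ S, (1 / (p : ℝ)) + √n * ∏ p ∈ S, (1 / √(p : ℝ))) := by
    calc ∑ m ∈ (Icc 1 n).filter (fun m => m ≡ r [MOD WW w]), (gw w m ^ 6 - 1)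
        = ∑ m ∈ (Icc 1 n).filter (fun m => m ≡ r [MOD WW w]), ∑ S ∈ (PP0 w n).powerset.erase ∅,
            if ∀ p ∈ S, p ∣ m then ∏ p ∈ S, FF p else 0 :=
          sum_congr rfl fun m hm => gw_six w n m (mem_filter.1 hm).1
      _ = ∑ S ∈ (PP0 w n).powerset.erase ∅, (∏ p ∈ S, FF p) *
          ((((Icc 1 n).filter (fun m => m ≡ r [MOD WW w])).filter
            (fun m => ∀ p ∈ S, p ∣ m)).card : ℝ) := by
          rw [sum_comm]
          refine sum_congr rfl fun S _ => ?_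
          rw [← sum_filter, sum_const, nsmul_eq_mul, mul_comm]
      _ ≤ _ := by
          refine sum_le_sum fun S hS => mul_le_mul_of_nonneg_left
            (cnt w n r S (mem_powerset.1 (mem_of_mem_erase hS)))
            (prod_nonneg fun p _ => FF_nonneg p)
  have hsplit : ∑ S ∈ (PP0 w n).powerset.erase ∅, (∏ p ∈ S, FF p) *
        (n / WW w * ∏ p ∈ S, (1 / (p : ℝ)) + √n * ∏ p ∈ S, (1 / √(p : ℝ))) =
      n / WW w * (∏ p ∈ PP0 w n, (1 + FF p * (1 / (p : ℝ))) - 1) +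
      √n * (∏ p ∈ PP0 w n, (1 + FF p * (1 / √(p : ℝ))) - 1) := by
    have gen : ∀ g : ℕ → ℝ, ∏ p ∈ PP0 w n, (1 + g p) - 1 =
        ∑ S ∈ (PP0 w n).powerset.erase ∅, ∏ p ∈ S, g p := by
      intro g
      rw [prod_one_add, ← sum_erase_add _ _ (empty_mem_powerset (PP0 w n))]
      simp
    rw [gen (fun p => FF p * (1 / (p : ℝ))), gen (fun p => FF p * (1 / √(p : ℝ))), mul_sum, mul_sum,
      ← sum_add_distrib]
    refine sum_congr rfl fun S _ => ?_
    rw [prod_mul_distrib, prod_mul_distrib]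
    ring
  rw [hsplit] at hmain
  refine hmain.trans ?_
  have h1 := A1 w n hw
  have h2 := hE w n hw
  have h3 : √(n:ℝ) * E ≤ n / WW w / w := by
    rw [le_div_iff₀ (by linarith), le_div_iff₀ hW']
    calc √(n:ℝ) * E * w * WW w = √n * (E * WW w * w) := by ring
      _ ≤ √n * √n := mul_le_mul_of_nonneg_left hsq (Real.sqrt_nonneg _)
      _ = n := Real.mul_self_sqrt hn0
  have h4 : √(n:ℝ) * (∏ p ∈ PP0 w n, (1 + FF p * (1 / √(p : ℝ))) - 1) ≤ √n * E :=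
    mul_le_mul_of_nonneg_left (by linarith) (Real.sqrt_nonneg _)
  have h5 : (n:ℝ) / WW w * (∏ p ∈ PP0 w n, (1 + FF p * (1 / (p : ℝ))) - 1) ≤
      n / WW w * (252 * Real.exp 84 / w) := mul_le_mul_of_nonneg_left h1 (by positivity)
  have e : (252 * Real.exp 84 + 1) * ((n:ℝ) / WW w) / w =
      n / WW w * (252 * Real.exp 84 / w) + n / WW w / w := by ring
  rw [e]
  linarith

end Pool.Agent.P8H7.GM
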