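import Pool.Agent.P8H49.GM.Stm

/-! Package PROD of project GM: products over the primes `w < p ≤ y`. -/

namespace Pool.Agent.P8H7.GM

open Finset Pool.Agent.P8H49.GM
open Pool.Agent.H373R2.T7 (pz Vz mem_pz)

theorem nu4_le (k h p : ℕ) : nu4 k h p ≤ 4 := by
  unfold nu4
  refine Finset.card_image_le.trans ?_
  exact Finset.card_le_four

theorem mod_ne {a b p : ℕ} (h : ¬ (p : ℤ) ∣ (a : ℤ) - b) : a % p ≠ b % p := by
  intro he
  apply h
  have h1 : (b : ℤ) ≡ a [ZMOD p] := by
    exact_mod_cast (show b ≡ a [MOD p] from he.symm)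
  exact h1.dvd

theorem nu4_ge_of {k h p : ℕ} (T : Finset ℕ) (hT : T ⊆ {0, h, k, k + h})
    (hd : ∀ a ∈ T, ∀ b ∈ T, a ≠ b → ¬ (p : ℤ) ∣ (a : ℤ) - b) : T.card ≤ nu4 k h p := by
  unfold nu4
  have h1 : (T.image (fun t => t % p)).card = T.card := by
    refine Finset.card_image_of_injOn fun a ha b hb hab => ?_
    by_contra hne
    exact mod_ne (hd a ha b hb hne) hab
  rw [← h1]
  exact Finset.card_le_card (Finset.image_subset_image hT)

theorem nu4_cases {k h p : ℕ} (hp : p.Prime) (h5 : 5 ≤ p) (hk : 1 ≤ k) (hh : 1 ≤ h) :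
    (p ∣ h → ¬ p ∣ k → 2 ≤ nu4 k h p) ∧ (1 ≤ nu4 k h p) ∧
    (¬ p ∣ h → 2 ≤ nu4 k h p) ∧
    (¬ p ∣ h → ¬ p ∣ k → 3 ≤ nu4 k h p) ∧
    (¬ p ∣ h → ¬ p ∣ k → ¬ p ∣ Nat.dist k h → ¬ p ∣ k + h → 4 ≤ nu4 k h p) := by
  have hpi : Prime (p : ℤ) := Nat.prime_iff_prime_int.1 hp
  have c1 : ∀ m : ℕ, (p : ℤ) ∣ (m : ℤ) ↔ p ∣ m := fun m => Int.natCast_dvd_natCast
  have c2 : (p : ℤ) ∣ (k : ℤ) - h ↔ p ∣ Nat.dist k h := by
    rw [← c1 (Nat.dist k h)]
    rcases le_total k h with hle | hle
    · rw [Nat.dist_eq_sub_of_le hle, Nat.cast_sub hle, ← dvd_neg, neg_sub]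
    · rw [Nat.dist_eq_sub_of_le_right hle, Nat.cast_sub hle]
  have c3 : (p : ℤ) ∣ (k : ℤ) + h ↔ p ∣ k + h := by
    rw [← c1 (k + h)]; push_cast; rfl
  have sy : ∀ a b : ℤ, (p : ℤ) ∣ a - b ↔ (p : ℤ) ∣ b - a := fun a b => dvd_sub_comm
  have two : ∀ m : ℤ, (p : ℤ) ∣ 2 * m → (p : ℤ) ∣ m := by
    intro m hm
    rcases hpi.dvd_or_dvd hm with h1 | h1
    · exfalso
      have h2 : p ∣ 2 := by exact_mod_cast h1
      have := Nat.le_of_dvd (by norm_num) h2
      omega
    · exact h1
  refine ⟨?_, ?_, ?_, ?_, ?_⟩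
  · intro _ h2
    have := nu4_ge_of (k := k) (h := h) (p := p) {0, k} (by intro x; simp; tauto) ?_
    · rwa [Finset.card_pair (by omega)] at this
    · intro a ha b hb hab
      simp only [Finset.mem_insert, Finset.mem_singleton] at ha hb
      rcases ha with ha | ha <;> rcases hb with hb | hb <;> rw [ha, hb]
      · exact absurd (ha.trans hb.symm) hab
      · simpa [c1] using h2
      · simpa [c1] using h2
      · exact absurd (ha.trans hb.symm) hab
  · have := nu4_ge_of (k := k) (h := h) (p := p) {0} (by intro x; simp; tauto) ?_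
    · simpa using this
    · intro a ha b hb hab
      simp only [Finset.mem_singleton] at ha hb
      exact absurd (ha.trans hb.symm) hab
  · intro h2
    have := nu4_ge_of (k := k) (h := h) (p := p) {0, h} (by intro x; simp; tauto) ?_
    · rwa [Finset.card_pair (by omega)] at this
    · intro a ha b hb hab
      simp only [Finset.mem_insert, Finset.mem_singleton] at ha hb
      rcases ha with ha | ha <;> rcases hb with hb | hb <;> rw [ha, hb]
      · exact absurd (ha.trans hb.symm) hab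
      · simpa [c1] using h2
      · simpa [c1] using h2
      · exact absurd (ha.trans hb.symm) hab
  · intro h2 h3
    have h2' : ¬ (p : ℤ) ∣ (h : ℤ) := fun q => h2 ((c1 h).1 q)
    have h3' : ¬ (p : ℤ) ∣ (k : ℤ) := fun q => h3 ((c1 k).1 q)
    by_cases h4 : (p : ℤ) ∣ (k : ℤ) - h
    · -- {0, h, k + h}
      have h5' : ¬ (p : ℤ) ∣ (k : ℤ) + h := by
        intro q
        apply h3'
        apply two
        have := dvd_add h4 q
        have e : (k : ℤ) - h + (k + h) = 2 * k := by ring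
        rwa [e] at this
      have hc : ({0, h, k + h} : Finset ℕ).card = 3 := by
        rw [Finset.card_eq_three]
        exact ⟨0, h, k + h, by omega, by omega, by omega, rfl⟩
      rw [← hc]
      refine nu4_ge_of _ (by intro x; simp; tauto) ?_
      intro a ha b hb hab
      simp only [Finset.mem_insert, Finset.mem_singleton] at ha hb
      rcases ha with ha | ha | ha <;> rcases hb with hb | hb | hb <;> rw [ha, hb]
      · exact absurd (ha.trans hb.symm) hab
      · simpa using h2'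
      · push_cast; rw [zero_sub, dvd_neg]; exact h5'
      · simpa using h2'
      · exact absurd (ha.trans hb.symm) hab
      · push_cast
        have e : (h : ℤ) - (k + h) = -k := by ring
        rw [e, dvd_neg]; exact h3'
      · push_cast; rw [sub_zero]; exact h5'
      · push_cast
        have e : (k : ℤ) + h - h = k := by ring
        rw [e]; exact h3'
      · exact absurd (ha.trans hb.symm) hab
    · have hkh : k ≠ h := by
        rintro rfl
        apply h4
        simp
      have hc : ({0, h, k} : Finset ℕ).card = 3 := by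
        rw [Finset.card_eq_three]
        exact ⟨0, h, k, by omega, by omega, fun q => hkh q.symm, rfl⟩
      rw [← hc]
      refine nu4_ge_of _ (by intro x; simp; tauto) ?_
      intro a ha b hb hab
      simp only [Finset.mem_insert, Finset.mem_singleton] at ha hb
      rcases ha with ha | ha | ha <;> rcases hb with hb | hb | hb <;> rw [ha, hb]
      · exact absurd (ha.trans hb.symm) hab
      · simpa using h2'
      · simpa using h3'
      · simpa using h2'
      · exact absurd (ha.trans hb.symm) hab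
      · rw [sy]; exact h4
      · simpa using h3'
      · exact h4
      · exact absurd (ha.trans hb.symm) hab
  · intro h2 h3 h4 h6
    have h2' : ¬ (p : ℤ) ∣ (h : ℤ) := fun q => h2 ((c1 h).1 q)
    have h3' : ¬ (p : ℤ) ∣ (k : ℤ) := fun q => h3 ((c1 k).1 q)
    have h4' : ¬ (p : ℤ) ∣ (k : ℤ) - h := fun q => h4 (c2.1 q)
    have h6' : ¬ (p : ℤ) ∣ (k : ℤ) + h := fun q => h6 (c3.1 q)
    have hkh : k ≠ h := by
      rintro rfl
      apply h4'
      simp
    have hc : ({0, h, k, k + h} : Finset ℕ).card = 4 := by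
      rw [Finset.card_insert_of_notMem, Finset.card_eq_three.2 ⟨h, k, k + h, fun q => hkh q.symm,
        by omega, by omega, rfl⟩]
      simp only [Finset.mem_insert, Finset.mem_singleton, not_or]
      omega
    rw [← hc]
    refine nu4_ge_of _ (by intro x; simp) ?_
    intro a ha b hb hab
    simp only [Finset.mem_insert, Finset.mem_singleton] at ha hb
    rcases ha with ha | ha | ha | ha <;> rcases hb with hb | hb | hb | hb <;> rw [ha, hb]
    · exact absurd (ha.trans hb.symm) hab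
    · simpa using h2'
    · simpa using h3'
    · push_cast; rw [zero_sub, dvd_neg]; exact h6'
    · simpa using h2'
    · exact absurd (ha.trans hb.symm) hab
    · rw [sy]; exact h4'
    · push_cast
      have e : (h : ℤ) - (k + h) = -k := by ring
      rw [e, dvd_neg]; exact h3'
    · simpa using h3'
    · exact h4'
    · exact absurd (ha.trans hb.symm) hab
    · push_cast
      have e : (k : ℤ) - (k + h) = -h := by ring
      rw [e, dvd_neg]; exact h2'
    · push_cast; rw [sub_zero]; exact h6'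
    · push_cast
      have e : (k : ℤ) + h - h = k := by ring
      rw [e]; exact h3'
    · push_cast
      have e : (k : ℤ) + h - k = h := by ring
      rw [e]; exact h2'
    · exact absurd (ha.trans hb.symm) hab

/-- the factor of the prime `p` -/
noncomputable def ef (m p : ℕ) : ℝ := if p ∣ m then 1 + 4 / (p : ℝ) else 1

theorem ef_ge (m p : ℕ) : 1 ≤ ef m p := by
  unfold ef
  split_ifs
  · have : (0:ℝ) ≤ 4 / (p : ℝ) := by positivity
    linarith
  · exact le_rfl

theorem term {k h p : ℕ} (hp : p.Prime) (h5 : 5 ≤ p) (hk : 1 ≤ k) (hh : 1 ≤ h) :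
    1 - (nu4 k h p : ℝ) / p ≤ (1 - ((if p ∣ h then 1 else 2 : ℕ) : ℝ) / p) ^ 2 *
      (ef k p * ef (Nat.dist k h) p * ef (k + h) p) := by
  obtain ⟨a1, a2, a3, a4, a5⟩ := nu4_cases hp h5 hk hh
  have hp0 : (0:ℝ) < p := by exact_mod_cast hp.pos
  obtain ⟨u, hu⟩ : ∃ u : ℝ, u = 1 / p := ⟨_, rfl⟩
  have hu0 : 0 < u := by rw [hu]; positivity
  have hu5 : u ≤ 1 / 5 := by
    rw [hu]
    exact one_div_le_one_div_of_le (by norm_num) (by exact_mod_cast h5)
  have d : ∀ x : ℝ, x / p = x * u := fun x => by rw [hu]; ring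
  have e1 := ef_ge k p
  have e2 := ef_ge (Nat.dist k h) p
  have e3 := ef_ge (k + h) p
  have key : ∀ (c : ℕ) (s t : ℝ), c ≤ nu4 k h p → 0 ≤ s → 1 - (c : ℝ) * u ≤ s * t →
      t ≤ ef k p * ef (Nat.dist k h) p * ef (k + h) p →
      1 - (nu4 k h p : ℝ) / p ≤ s * (ef k p * ef (Nat.dist k h) p * ef (k + h) p) := by
    intro c s t hc hs h1 h2
    have h3 : (c : ℝ) ≤ nu4 k h p := by exact_mod_cast hc
    rw [d]
    calc 1 - (nu4 k h p : ℝ) * u ≤ 1 - (c : ℝ) * u := by nlinarith
      _ ≤ s * t := h1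
      _ ≤ _ := mul_le_mul_of_nonneg_left h2 hs
  have one : 1 ≤ ef k p * ef (Nat.dist k h) p * ef (k + h) p := by
    have h12 : 1 ≤ ef k p * ef (Nat.dist k h) p := by nlinarith
    nlinarith
  have four : ¬ (¬ p ∣ k ∧ ¬ p ∣ Nat.dist k h ∧ ¬ p ∣ k + h) →
      1 + 4 * u ≤ ef k p * ef (Nat.dist k h) p * ef (k + h) p := by
    intro hn
    have hval : ∀ m, p ∣ m → ef m p = 1 + 4 * u := by
      intro m hm
      unfold ef
      rw [if_pos hm, d]
    by_cases b1 : p ∣ k
    · rw [← hval k b1]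
      have : 1 ≤ ef (Nat.dist k h) p * ef (k + h) p := by nlinarith
      rw [mul_assoc]
      nlinarith
    · by_cases b2 : p ∣ Nat.dist k h
      · rw [← hval _ b2]
        have : 1 ≤ ef k p * ef (k + h) p := by nlinarith
        have e : ef k p * ef (Nat.dist k h) p * ef (k + h) p =
          ef (Nat.dist k h) p * (ef k p * ef (k + h) p) := by ring
        rw [e]
        nlinarith
      · by_cases b3 : p ∣ k + h
        · rw [← hval _ b3]
          have : 1 ≤ ef k p * ef (Nat.dist k h) p := by nlinarith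
          nlinarith
        · exact absurd ⟨b1, b2, b3⟩ hn
  by_cases b0 : p ∣ h
  · simp only [b0, if_true]
    by_cases b1 : p ∣ k
    · refine key 1 _ (1 + 4 * u) a2 (sq_nonneg _) ?_ (four fun q => q.1 b1)
      rw [d]; push_cast
      nlinarith [mul_nonneg (sq_nonneg u) hu0.le]
    · refine key 2 _ 1 (a1 b0 b1) (sq_nonneg _) ?_ one
      rw [d]; push_cast
      nlinarith [sq_nonneg u]
  · simp only [b0, if_false]
    by_cases b1 : p ∣ k
    · refine key 2 _ (1 + 4 * u) (a3 b0) (sq_nonneg _) ?_ (four fun q => q.1 b1)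
      rw [d]; push_cast
      have h1 : 0 ≤ 1 - 2 * u := by linarith
      have h2 : 0 ≤ (1 - 2 * u) * (1 + 4 * u) - 1 := by nlinarith
      nlinarith [mul_nonneg h1 h2]
    · by_cases b2 : ¬ p ∣ Nat.dist k h ∧ ¬ p ∣ k + h
      · refine key 4 _ 1 (a5 b0 b1 b2.1 b2.2) (sq_nonneg _) ?_ one
        rw [d]; push_cast
        nlinarith [sq_nonneg u]
      · refine key 3 _ (1 + 4 * u) (a4 b0 b1) (sq_nonneg _) ?_ (four fun q => b2 q.2)
        rw [d]; push_cast
        have h2 : 0 ≤ u * (3 - 12 * u + 16 * u ^ 2) :=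
          mul_nonneg hu0.le (by nlinarith [sq_nonneg u])
        nlinarith

theorem one_le_prod_real {ι : Type} (s : Finset ι) (f : ι → ℝ) (h : ∀ i ∈ s, 1 ≤ f i) :
    1 ≤ ∏ i ∈ s, f i := by
  calc (1:ℝ) = ∏ i ∈ s, (1:ℝ) := by simp
    _ ≤ _ := Finset.prod_le_prod (fun _ _ => zero_le_one) h

theorem ef_prod (w y m : ℕ) (hm : m ≠ 0) :
    ∏ p ∈ (pz y).filter (fun p => w < p), ef m p ≤ gw w m := by
  unfold gw
  have h1 : ∏ p ∈ (pz y).filter (fun p => w < p), ef m p =
      ∏ p ∈ ((pz y).filter (fun p => w < p)).filter (fun p => p ∣ m), (1 + 4 / (p : ℝ)) := by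
    unfold ef
    rw [Finset.prod_filter (fun p => p ∣ m)]
  rw [h1]
  have hsub : ((pz y).filter (fun p => w < p)).filter (fun p => p ∣ m) ⊆
      m.primeFactors.filter (fun p => w < p) := by
    intro p hp
    rw [Finset.mem_filter, Finset.mem_filter] at hp
    rw [Finset.mem_filter, Nat.mem_primeFactors]
    exact ⟨⟨(mem_pz.1 hp.1.1).2, hp.2, hm⟩, hp.1.2⟩
  rw [← Finset.prod_sdiff hsub]
  refine le_mul_of_one_le_left ?_ ?_
  · exact Finset.prod_nonneg fun p _ => by positivity
  · refine one_le_prod_real _ _ fun p _ => ?_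
    have : (0:ℝ) ≤ 4 / (p : ℝ) := by positivity
    linarith

theorem part1 (w y k h : ℕ) (hw : 3 ≤ w) (hh : 1 ≤ h) (hk : 1 ≤ k) (hkh : k ≠ h) :
    ∏ p ∈ (pz y).filter (fun p => w < p), (1 - (nu4 k h p : ℝ) / p) ≤ Pi2 w y h ^ 2 * GG w k h := by
  have hp5 : ∀ p ∈ (pz y).filter (fun p => w < p), p.Prime ∧ 5 ≤ p := by
    intro p hp
    rw [Finset.mem_filter] at hp
    have h1 := (mem_pz.1 hp.1).2
    refine ⟨h1, ?_⟩
    have h4 : 4 ≤ p := by omega
    rcases Nat.lt_or_ge p 5 with h | h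
    · exfalso
      have : p = 4 := by omega
      rw [this] at h1
      exact absurd h1 (by norm_num)
    · exact h
  have h1 : ∏ p ∈ (pz y).filter (fun p => w < p), (1 - (nu4 k h p : ℝ) / p) ≤
      ∏ p ∈ (pz y).filter (fun p => w < p), ((1 - ((if p ∣ h then 1 else 2 : ℕ) : ℝ) / p) ^ 2 *
      (ef k p * ef (Nat.dist k h) p * ef (k + h) p)) := by
    refine Finset.prod_le_prod (fun p hp => ?_) fun p hp => term (hp5 p hp).1 (hp5 p hp).2 hk hh
    have h2 : (nu4 k h p : ℝ) ≤ 4 := by exact_mod_cast nu4_le k h p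
    have h3 : (5:ℝ) ≤ p := by exact_mod_cast (hp5 p hp).2
    rw [sub_nonneg, div_le_one (by linarith)]
    linarith
  refine h1.trans ?_
  rw [Finset.prod_mul_distrib, Finset.prod_pow, Finset.prod_mul_distrib, Finset.prod_mul_distrib]
  unfold Pi2 GG
  refine mul_le_mul_of_nonneg_left ?_ (sq_nonneg _)
  have hd : Nat.dist k h ≠ 0 := fun q => hkh (Nat.eq_of_dist_eq_zero q)
  have n1 : ∀ m, 0 ≤ ∏ p ∈ (pz y).filter (fun p => w < p), ef m p := fun m =>
    Finset.prod_nonneg fun p _ => zero_le_one.trans (ef_ge m p)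
  have g1 := ef_prod w y k (by omega)
  have g2 := ef_prod w y (Nat.dist k h) hd
  have g3 := ef_prod w y (k + h) (by omega)
  exact mul_le_mul (mul_le_mul g1 g2 (n1 _) ((n1 _).trans g1)) g3 (n1 _)
    (mul_nonneg ((n1 _).trans g1) ((n1 _).trans g2))

/-- the product of `1 - 2 / p` over the primes `3 < p ≤ y` -/
noncomputable def Q (y : ℕ) : ℝ := ∏ p ∈ (pz y).filter (fun p => 3 < p), (1 - 2 / (p : ℝ))

theorem pz_succ (y : ℕ) : pz (y + 1) = if (y + 1).Prime then insert (y + 1) (pz y) else pz y := by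
  ext p
  split_ifs with h
  · rw [Finset.mem_insert, mem_pz, mem_pz]
    constructor
    · rintro ⟨h1, h2⟩
      rcases Nat.lt_or_ge y p with h3 | h3
      · left; omega
      · right; exact ⟨h3, h2⟩
    · rintro (rfl | ⟨h1, h2⟩)
      · exact ⟨le_rfl, h⟩
      · exact ⟨by omega, h2⟩
  · rw [mem_pz, mem_pz]
    constructor
    · rintro ⟨h1, h2⟩
      refine ⟨?_, h2⟩
      rcases Nat.lt_or_ge y p with h3 | h3
      · exfalso
        have : p = y + 1 := by omega
        exact h (this ▸ h2)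
      · exact h3
    · rintro ⟨h1, h2⟩
      exact ⟨by omega, h2⟩

theorem Q_nonneg (y : ℕ) : 0 ≤ Q y := by
  unfold Q
  refine Finset.prod_nonneg fun p hp => ?_
  rw [Finset.mem_filter] at hp
  have h3 : (3:ℝ) ≤ p := by exact_mod_cast hp.2.le
  rw [sub_nonneg, div_le_one (by linarith)]
  linarith

theorem Q_succ_ge (y : ℕ) (hy : 3 ≤ y) : Q y * (1 - 2 / ((y + 1 : ℕ) : ℝ)) ≤ Q (y + 1) := by
  have h0 := Q_nonneg y
  unfold Q at h0 ⊢
  rw [pz_succ]
  split_ifs with h
  · rw [Finset.filter_insert, if_pos (by omega), Finset.prod_insert, mul_comm]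
    intro hm
    have := (mem_pz.1 (Finset.mem_filter.1 hm).1).1
    omega
  · refine mul_le_of_le_one_right h0 ?_
    have : (0:ℝ) ≤ 2 / ((y + 1 : ℕ) : ℝ) := by positivity
    linarith

theorem Q_even (n : ℕ) (hn : 1 ≤ n) : Q (2 * n + 2) = Q (2 * n + 1) := by
  unfold Q
  rw [show 2 * n + 2 = (2 * n + 1) + 1 by ring, pz_succ, if_neg]
  intro h
  have h2 : 2 ∣ 2 * n + 1 + 1 := ⟨n + 1, by ring⟩
  have := (Nat.prime_dvd_prime_iff_eq Nat.prime_two h).1 h2
  omega

theorem Q_odd (n : ℕ) (hn : 1 ≤ n) : 3 / ((2 * n + 1 : ℕ) : ℝ) ≤ Q (2 * n + 1) := by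
  induction n, hn using Nat.le_induction with
  | base =>
    have : Q (2 * 1 + 1) = 1 := by
      unfold Q
      have h0 : (pz (2 * 1 + 1)).filter (fun p => 3 < p) = ∅ := by
        refine Finset.filter_eq_empty_iff.2 fun p hp => ?_
        have := (mem_pz.1 hp).1
        omega
      rw [h0, Finset.prod_empty]
    rw [this]
    norm_num
  | succ n hn ih =>
    have h1 := Q_succ_ge (2 * n + 2) (by omega)
    rw [Q_even n hn] at h1
    have e : 2 * (n + 1) + 1 = 2 * n + 2 + 1 := by ring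
    rw [e]
    refine le_trans ?_ h1
    have hn0 : (0:ℝ) < (2 * n + 1 : ℕ) := by positivity
    have hn3 : (0:ℝ) < (2 * n + 2 + 1 : ℕ) := by positivity
    have h2 : 0 ≤ 1 - 2 / ((2 * n + 2 + 1 : ℕ) : ℝ) := by
      rw [sub_nonneg, div_le_one hn3]
      push_cast
      have : (0:ℝ) ≤ n := by positivity
      linarith
    calc 3 / ((2 * n + 2 + 1 : ℕ) : ℝ)
        = 3 / ((2 * n + 1 : ℕ) : ℝ) * (1 - 2 / ((2 * n + 2 + 1 : ℕ) : ℝ)) := by
          push_cast
          field_simp
          ring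
      _ ≤ _ := mul_le_mul_of_nonneg_right ih h2

theorem Q_low (y : ℕ) (hy : 1 ≤ y) : 1 / (y : ℝ) ≤ Q y := by
  rcases Nat.lt_or_ge y 3 with h | h
  · have : Q y = 1 := by
      unfold Q
      have h0 : (pz y).filter (fun p => 3 < p) = ∅ := by
        refine Finset.filter_eq_empty_iff.2 fun p hp => ?_
        have := (mem_pz.1 hp).1
        omega
      rw [h0, Finset.prod_empty]
    rw [this]
    have hy1 : (1:ℝ) ≤ y := by exact_mod_cast hy
    rw [div_le_one (by linarith)]
    exact hy1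
  · rcases Nat.even_or_odd y with ⟨n, hn⟩ | ⟨n, hn⟩
    · obtain ⟨k, rfl⟩ : ∃ k, n = k + 1 := ⟨n - 1, by omega⟩
      have e : y = 2 * k + 2 := by omega
      rw [e, Q_even k (by omega)]
      refine le_trans ?_ (Q_odd k (by omega))
      have h1 : (0:ℝ) < (2 * k + 1 : ℕ) := by positivity
      rw [div_le_div_iff₀ (by positivity) h1]
      push_cast
      have : (0:ℝ) ≤ k := by positivity
      linarith
    · rw [hn]
      refine le_trans ?_ (Q_odd n (by omega))
      have h1 : (0:ℝ) < (2 * n + 1 : ℕ) := by positivity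
      rw [div_le_div_iff_of_pos_right h1]
      norm_num

theorem part2 (w y h : ℕ) (hw : 3 ≤ w) (hy : 1 ≤ y) : 1 / (y : ℝ) ≤ Pi2 w y h := by
  refine (Q_low y hy).trans ?_
  have hsub : (pz y).filter (fun p => w < p) ⊆ (pz y).filter (fun p => 3 < p) := by
    intro p hp
    rw [Finset.mem_filter] at hp ⊢
    exact ⟨hp.1, by omega⟩
  unfold Q
  rw [← Finset.prod_sdiff hsub]
  have h0 : ∀ p ∈ (pz y).filter (fun p => 3 < p), 0 ≤ 1 - 2 / (p : ℝ) := by
    intro p hp
    rw [Finset.mem_filter] at hp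
    have h3 : (3:ℝ) ≤ p := by exact_mod_cast hp.2.le
    rw [sub_nonneg, div_le_one (by linarith)]
    linarith
  have h1 : ∏ p ∈ (pz y).filter (fun p => 3 < p) \ (pz y).filter (fun p => w < p),
      (1 - 2 / (p : ℝ)) ≤ 1 := by
    refine Finset.prod_le_one (fun p hp => h0 p (Finset.sdiff_subset hp)) fun p _ => ?_
    have : (0:ℝ) ≤ 2 / (p : ℝ) := by positivity
    linarith
  have h2 : 0 ≤ ∏ p ∈ (pz y).filter (fun p => w < p), (1 - 2 / (p : ℝ)) :=
    Finset.prod_nonneg fun p hp => h0 p (hsub hp)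
  refine (mul_le_of_le_one_left h2 h1).trans ?_
  unfold Pi2
  refine Finset.prod_le_prod (fun p hp => h0 p (hsub hp)) fun p _ => ?_
  have hp0 : (0:ℝ) ≤ p := by positivity
  split_ifs
  · have : (1:ℝ) / p ≤ 2 / p := div_le_div_of_nonneg_right (by norm_num) hp0
    push_cast
    linarith
  · push_cast
    exact le_rfl

theorem t_prod : S_PROD := ⟨part1, part2⟩

end Pool.Agent.P8H7.GM
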