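import Pool.Agent.P8H49.GM.Stm
import Pool.Agent.H373R2.T7.Fund

/-! Package VAR of project GM: the second moment over `a`. -/

namespace Pool.Agent.P8H7.GM

open Finset Pool.Agent.P8H49.GM
open Pool.Agent.H373R2.T7 (pz Vz mem_pz nuB PerB sys_fund)

/-- `m` stands for `a + W (m - 1)`; the forbidden values of twice this number are the elements of `T` -/
def QT (w W a : ℕ) (T : Finset ℤ) (p m : ℕ) : Prop :=
  w < p ∧ ∃ t ∈ T, (p : ℤ) ∣ 2 * ((a : ℤ) + W * ((m : ℤ) - 1)) - t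

theorem qt_per (w W a : ℕ) (T : Finset ℤ) (p m : ℕ) : QT w W a T p m ↔ QT w W a T p (m % p) := by
  unfold QT
  refine and_congr_right fun _ => exists_congr fun t => and_congr_right fun _ => ?_
  have h : (p : ℤ) ∣ (m : ℤ) - ((m % p : ℕ) : ℤ) :=
    (Nat.modEq_iff_dvd).1 (Nat.mod_modEq m p)
  have e : 2 * ((a : ℤ) + W * ((m : ℤ) - 1)) - t =
      (2 * ((a : ℤ) + W * (((m % p : ℕ) : ℤ) - 1)) - t) +
        2 * W * ((m : ℤ) - ((m % p : ℕ) : ℤ)) := by ring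
  rw [e]
  exact dvd_add_left (Dvd.dvd.mul_left h _)

theorem nuB_qt (w W a : ℕ) (T : Finset ℤ) (p : ℕ) (hp : p.Prime) (hwp : w < p) (h2 : ¬ p ∣ 2)
    (hW : ¬ p ∣ W) : nuB (QT w W a T) p = (T.image (fun t : ℤ => (t : ZMod p))).card := by
  classical
  haveI := Fact.mk hp
  have hpi : Prime (p : ℤ) := Nat.prime_iff_prime_int.1 hp
  have key : ∀ (r : ℕ) (t : ℤ), ((((2 * ((a:ℤ) + W * ((r:ℤ) - 1)) : ℤ)) : ZMod p) = (t : ZMod p)) ↔
      (p : ℤ) ∣ 2 * ((a : ℤ) + W * ((r : ℤ) - 1)) - t := by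
    intro r t
    rw [eq_comm, ZMod.intCast_eq_intCast_iff_dvd_sub]
  unfold nuB
  refine card_nbij (fun r : ℕ => (((2 * ((a:ℤ) + W * ((r:ℤ) - 1)) : ℤ)) : ZMod p)) ?_ ?_ ?_
  · intro r hr
    rw [mem_coe, mem_filter] at hr
    obtain ⟨_, _, t, ht, htd⟩ := hr
    rw [mem_coe, mem_image]
    exact ⟨t, ht, ((key r t).2 htd).symm⟩
  · intro r hr s hs hrs
    have hr' := mem_range.1 (mem_filter.1 hr).1
    have hs' := mem_range.1 (mem_filter.1 hs).1
    have h1 : (p : ℤ) ∣ 2 * ((a:ℤ) + W * ((r:ℤ) - 1)) - 2 * ((a:ℤ) + W * ((s:ℤ) - 1)) :=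
      (key r _).1 hrs
    have e : 2 * ((a:ℤ) + W * ((r:ℤ) - 1)) - 2 * ((a:ℤ) + W * ((s:ℤ) - 1)) =
        2 * (W * ((r:ℤ) - s)) := by ring
    rw [e] at h1
    rcases hpi.dvd_or_dvd h1 with h3 | h3
    · exact absurd (by exact_mod_cast h3) h2
    rcases hpi.dvd_or_dvd h3 with h4 | h4
    · exact absurd (by exact_mod_cast h4) hW
    have h5 : s ≡ r [MOD p] := (Nat.modEq_iff_dvd).2 h4
    exact (h5.eq_of_lt_of_lt hs' hr').symm
  · intro τ hτ
    rw [mem_coe, mem_image] at hτ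
    obtain ⟨t, ht, rfl⟩ := hτ
    have hu : ((2 * W : ℕ) : ZMod p) ≠ 0 := by
      rw [Ne, ZMod.natCast_eq_zero_iff]
      intro h
      rcases hp.dvd_mul.1 h with h | h
      · exact h2 h
      · exact hW h
    push_cast at hu
    obtain ⟨z, hz⟩ : ∃ z : ZMod p, z = ((t : ZMod p) - 2 * a) / (2 * W) + 1 := ⟨_, rfl⟩
    have hc : (((2 * ((a:ℤ) + W * ((z.val:ℤ) - 1)) : ℤ)) : ZMod p) = (t : ZMod p) := by
      push_cast
      rw [ZMod.natCast_val, ZMod.cast_id, hz]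
      have : 2 * ((a : ZMod p) + W * (((t : ZMod p) - 2 * a) / (2 * W) + 1 - 1)) =
          2 * a + (2 * W) * ((((t : ZMod p) - 2 * a)) / (2 * W)) := by ring
      rw [this, mul_div_cancel₀ _ hu]
      ring
    refine ⟨z.val, ?_, hc⟩
    rw [mem_coe, mem_filter, mem_range]
    exact ⟨ZMod.val_lt z, hwp, t, ht, (key _ _).1 hc⟩

theorem nuB_le_w (w W a : ℕ) (T : Finset ℤ) (p : ℕ) (h : p ≤ w) : nuB (QT w W a T) p = 0 := by
  classical
  unfold nuB
  rw [card_eq_zero, filter_eq_empty_iff]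
  rintro r _ ⟨h1, _⟩
  omega

theorem not_dvd_two {w p : ℕ} (hw : 3 ≤ w) (h : w < p) : ¬ p ∣ 2 := by
  intro h1
  have := Nat.le_of_dvd (by norm_num) h1
  omega

theorem not_dvd_WW {w p : ℕ} (hp : p.Prime) (h : w < p) : ¬ p ∣ WW w := by
  unfold WW
  intro h1
  obtain ⟨q, hq, hpq⟩ := (hp.prime.dvd_finsetProd_iff _).1 h1
  have h2 := mem_pz.1 hq
  have := (Nat.prime_dvd_prime_iff_eq hp h2.2).1 hpq
  omega

theorem perB (w a : ℕ) (hw : 3 ≤ w) (T : Finset ℤ) (hT : T.card ≤ 4) :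
    PerB (QT w (WW w) a T) 4 := by
  refine ⟨fun p n => qt_per w (WW w) a T p n, fun p hp => ?_⟩
  rcases Nat.lt_or_ge w p with h | h
  · rw [nuB_qt w (WW w) a T p hp h (not_dvd_two hw h) (not_dvd_WW hp h)]
    exact card_image_le.trans hT
  · rw [nuB_le_w w (WW w) a T p h]
    exact Nat.zero_le _

theorem prod_split (w y a : ℕ) (T : Finset ℤ) (f : ℕ → ℕ)
    (hf : ∀ p, p.Prime → w < p → nuB (QT w (WW w) a T) p = f p) :
    ∏ p ∈ pz y, (1 - (nuB (QT w (WW w) a T) p : ℝ) / p) =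
      ∏ p ∈ (pz y).filter (fun p => w < p), (1 - (f p : ℝ) / p) := by
  rw [prod_filter]
  refine prod_congr rfl fun p hp => ?_
  split_ifs with h
  · rw [hf p (mem_pz.1 hp).2 h]
  · rw [nuB_le_w w (WW w) a T p (not_lt.1 h)]
    simp

theorem card_one (x h p : ℕ) :
    (({(x:ℤ), (x:ℤ) - h} : Finset ℤ).image (fun t : ℤ => (t : ZMod p))).card =
      if p ∣ h then 1 else 2 := by
  classical
  rw [image_insert, image_singleton]
  split_ifs with hd
  · have : (h : ZMod p) = 0 := (ZMod.natCast_eq_zero_iff h p).2 hd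
    push_cast
    rw [this, sub_zero, insert_eq_of_mem (mem_singleton_self _), card_singleton]
  · rw [card_pair]
    push_cast
    intro he
    apply hd
    rw [← ZMod.natCast_eq_zero_iff h p]
    have := sub_eq_self.1 he.symm
    exact this

theorem image_mod (S : Finset ℕ) (p : ℕ) :
    (S.image (fun t => t % p)).card = (S.image (fun t : ℕ => (t : ZMod p))).card := by
  classical
  have h1 : S.image (fun t : ℕ => (t : ZMod p)) =
      (S.image (fun t => t % p)).image (fun t : ℕ => (t : ZMod p)) := by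
    rw [image_image]
    refine image_congr fun t _ => ?_
    simp
  rw [h1]
  symm
  refine card_image_of_injOn fun a ha b hb hab => ?_
  rw [coe_image, Set.mem_image] at ha hb
  obtain ⟨a', _, rfl⟩ := ha
  obtain ⟨b', _, rfl⟩ := hb
  have h2 : a' % p ≡ b' % p [MOD p] := (ZMod.natCast_eq_natCast_iff _ _ _).1 hab
  have h3 : a' % p % p = b' % p % p := h2
  rwa [Nat.mod_mod, Nat.mod_mod] at h3

theorem card_pairs_aux (x k h p : ℕ) (T : Finset ℤ)
    (hT : T = {(x:ℤ), (x:ℤ) - h, (x:ℤ) + k, (x:ℤ) + k - h}) :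
    (T.image (fun t : ℤ => (t : ZMod p))).card = nu4 k h p := by
  classical
  unfold nu4
  rw [image_mod, hT]
  have h1 : ({(x:ℤ), (x:ℤ) - h, (x:ℤ) + k, (x:ℤ) + k - h} : Finset ℤ).image
      (fun t : ℤ => (t : ZMod p)) =
      (({0, h, k, k + h} : Finset ℕ).image (fun t : ℕ => (t : ZMod p))).image
        (fun z : ZMod p => z + ((x : ZMod p) - h)) := by
    simp only [image_insert, image_singleton]
    push_cast
    ext z
    simp only [mem_insert, mem_singleton]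
    have e1 : (0 : ZMod p) + (x - h) = x - h := by ring
    have e2 : (h : ZMod p) + (x - h) = x := by ring
    have e3 : (k : ZMod p) + (x - h) = x + k - h := by ring
    have e4 : (k : ZMod p) + h + (x - h) = x + k := by ring
    rw [e1, e2, e3, e4]
    tauto
  rw [h1, card_image_of_injective _ (add_left_injective _)]

theorem card_pairs (x x' h p : ℕ) :
    (({(x:ℤ), (x:ℤ) - h, (x':ℤ), (x':ℤ) - h} : Finset ℤ).image (fun t : ℤ => (t : ZMod p))).card =
      nu4 (Nat.dist x x') h p := by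
  rcases le_total x x' with hle | hle
  · refine card_pairs_aux x _ h p _ ?_
    rw [Nat.dist_eq_sub_of_le hle, Nat.cast_sub hle]
    have e : (x:ℤ) + ((x':ℤ) - x) = x' := by ring
    rw [e]
  · refine card_pairs_aux x' _ h p _ ?_
    rw [Nat.dist_eq_sub_of_le_right hle, Nat.cast_sub hle]
    have e : (x':ℤ) + ((x:ℤ) - x') = x := by ring
    rw [e]
    ext z
    simp only [mem_insert, mem_singleton]
    tauto

open Classical in
/-- the count -/
noncomputable def cn (w y a M : ℕ) (T : Finset ℤ) : ℝ :=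
  ((((Icc 1 M).filter (fun m : ℕ => ∀ p ∈ pz y, ¬ QT w (WW w) a T p m)).card : ℕ) : ℝ)

open Classical in
/-- the conclusion of `sys_fund` -/
def Fu (K x0 : ℕ) (ε : ℝ) : Prop := ∀ x y : ℕ, x0 ≤ y → y ^ K ≤ x →
      ∀ Q : ℕ → ℕ → Prop, PerB Q 4 → ∀ X : ℕ,
      |((((Icc 1 X).filter (fun n : ℕ => ∀ p ∈ pz y, ¬ Q p n)).card : ℕ) : ℝ) -
      X * ∏ p ∈ pz y, (1 - (nuB Q p : ℝ) / p)| ≤ ε * (X * ∏ p ∈ pz y, (1 - (nuB Q p : ℝ) / p)) + √(x : ℝ)

theorem cn_one {K x0 : ℕ} {ε : ℝ}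
    (hs : Fu K x0 ε)
    (w y n a h x M : ℕ) (hw : 3 ≤ w) (h0 : x0 ≤ y) (hK : y ^ K ≤ n) :
    |cn w y a M {(x:ℤ), (x:ℤ) - h} - M * Pi2 w y h| ≤ ε * (M * Pi2 w y h) + √(n : ℝ) := by
  classical
  have h1 := hs n y h0 hK (QT w (WW w) a {(x:ℤ), (x:ℤ) - h})
    (perB w a hw _ (card_le_two.trans (by norm_num))) M
  rw [prod_split w y a _ (fun p => if p ∣ h then 1 else 2) (fun p hp hwp => by
    rw [nuB_qt w (WW w) a _ p hp hwp (not_dvd_two hw hwp) (not_dvd_WW hp hwp), card_one])] at h1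
  unfold cn Pi2
  convert h1 using 3

theorem cn_two {K x0 : ℕ} {ε : ℝ} (hε : 0 ≤ ε)
    (hs : Fu K x0 ε)
    (hprod : S_PROD) (w y n a h x x' M : ℕ) (hw : 3 ≤ w) (h0 : x0 ≤ y) (hK : y ^ K ≤ n)
    (hh : 1 ≤ h) (hne : x' ≠ x) (hd : Nat.dist x x' ≠ h) :
    cn w y a M {(x:ℤ), (x:ℤ) - h, (x':ℤ), (x':ℤ) - h} ≤
      (1 + ε) * (M * (Pi2 w y h ^ 2 * GG w (Nat.dist x x') h)) + √(n : ℝ) := by
  classical
  have h1 := hs n y h0 hK (QT w (WW w) a {(x:ℤ), (x:ℤ) - h, (x':ℤ), (x':ℤ) - h})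
    (perB w a hw _ card_le_four) M
  rw [prod_split w y a _ (fun p => nu4 (Nat.dist x x') h p) (fun p hp hwp => by
    rw [nuB_qt w (WW w) a _ p hp hwp (not_dvd_two hw hwp) (not_dvd_WW hp hwp), card_pairs])] at h1
  have hk : 1 ≤ Nat.dist x x' := by
    rcases Nat.eq_zero_or_pos (Nat.dist x x') with h | h
    · exact absurd (Nat.eq_of_dist_eq_zero h).symm hne
    · exact h
  have h2 := hprod.1 w y (Nat.dist x x') h hw hh hk hd
  have h3 := (abs_le.1 h1).2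
  have h4 : (M : ℝ) * ∏ p ∈ (pz y).filter (fun p => w < p), (1 - (nu4 (Nat.dist x x') h p : ℝ) / p) ≤
      M * (Pi2 w y h ^ 2 * GG w (Nat.dist x x') h) := mul_le_mul_of_nonneg_left h2 (by positivity)
  have h5 : cn w y a M {(x:ℤ), (x:ℤ) - h, (x':ℤ), (x':ℤ) - h} ≤ (1 + ε) * ((M : ℝ) *
      ∏ p ∈ (pz y).filter (fun p => w < p), (1 - (nu4 (Nat.dist x x') h p : ℝ) / p)) + √(n : ℝ) := by
    have e : ∀ c P s : ℝ, c - P ≤ ε * P + s → c ≤ (1 + ε) * P + s := fun c P s hc => by linarith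
    refine e _ _ _ ?_
    unfold cn
    convert h3 using 3
  refine h5.trans ?_
  have : (1 + ε) * ((M : ℝ) *
      ∏ p ∈ (pz y).filter (fun p => w < p), (1 - (nu4 (Nat.dist x x') h p : ℝ) / p)) ≤
      (1 + ε) * (M * (Pi2 w y h ^ 2 * GG w (Nat.dist x x') h)) :=
    mul_le_mul_of_nonneg_left h4 (by linarith)
  linarith

/-- `x` is admitted by `m` -/
def Ad (w y a h m x : ℕ) : Prop := ∀ p ∈ pz y, ¬ QT w (WW w) a {(x:ℤ), (x:ℤ) - h} p m

theorem ad_and (w y a h m x x' : ℕ) : (Ad w y a h m x ∧ Ad w y a h m x') ↔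
    ∀ p ∈ pz y, ¬ QT w (WW w) a {(x:ℤ), (x:ℤ) - h, (x':ℤ), (x':ℤ) - h} p m := by
  unfold Ad QT
  simp only [mem_insert, mem_singleton]
  constructor
  · rintro ⟨h1, h2⟩ p hp ⟨hw, t, ht, hd⟩
    rcases ht with ht | ht | ht | ht
    · exact h1 p hp ⟨hw, t, Or.inl ht, hd⟩
    · exact h1 p hp ⟨hw, t, Or.inr ht, hd⟩
    · exact h2 p hp ⟨hw, t, Or.inl ht, hd⟩
    · exact h2 p hp ⟨hw, t, Or.inr ht, hd⟩
  · intro h1
    refine ⟨fun p hp ⟨hw, t, ht, hd⟩ => h1 p hp ⟨hw, t, ?_, hd⟩,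
      fun p hp ⟨hw, t, ht, hd⟩ => h1 p hp ⟨hw, t, ?_, hd⟩⟩
    · tauto
    · tauto

theorem ad_rgh (w y α h a x : ℕ) (ha : a % WW w = α % WW w) :
    Ad w y (α % WW w) h (a / WW w + 1) x ↔ Rgh y w a h x := by
  have e : ((α % WW w : ℕ) : ℤ) + (WW w : ℕ) * (((a / WW w + 1 : ℕ) : ℤ) - 1) = a := by
    rw [← ha]
    push_cast
    have := Nat.mod_add_div a (WW w)
    have h2 : ((a % WW w : ℕ) : ℤ) + (WW w : ℕ) * ((a / WW w : ℕ) : ℤ) = a := by exact_mod_cast this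
    push_cast at h2
    rw [add_sub_cancel_right]
    exact h2
  unfold Ad QT Rgh
  simp only [mem_insert, mem_singleton]
  rw [e]
  constructor
  · intro h1 p hp hwp
    refine ⟨fun hd => h1 p hp ⟨hwp, x, Or.inl rfl, hd⟩, fun hd => h1 p hp ⟨hwp, (x:ℤ) - h, Or.inr rfl, ?_⟩⟩
    have e2 : 2 * (a:ℤ) - (x - h) = 2 * a + h - x := by ring
    rw [e2]
    exact hd
  · rintro h1 p hp ⟨hwp, t, ht, hd⟩
    rcases ht with rfl | rfl
    · exact (h1 p hp hwp).1 hd
    · refine (h1 p hp hwp).2 ?_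
      have e2 : 2 * (a:ℤ) - (x - h) = 2 * a + h - x := by ring
      rwa [e2] at hd

theorem gw_ge (w m : ℕ) : 1 ≤ gw w m := by
  unfold gw
  calc (1:ℝ) = ∏ i ∈ m.primeFactors.filter (fun p => w < p), (1:ℝ) := by simp
    _ ≤ _ := prod_le_prod (fun _ _ => zero_le_one) fun p _ => by
        have : (0:ℝ) ≤ 4 / (p : ℝ) := by positivity
        linarith

theorem GG_ge (w k h : ℕ) : 1 ≤ GG w k h := by
  unfold GG
  have h1 := gw_ge w k
  have h2 := gw_ge w (Nat.dist k h)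
  have h3 := gw_ge w (k + h)
  have h4 : 1 ≤ gw w k * gw w (Nat.dist k h) := by nlinarith
  nlinarith

theorem SG_nonneg (w h : ℕ) (P : Finset ℕ) : 0 ≤ SG w h P := by
  classical
  unfold SG
  refine sum_nonneg fun x _ => sum_nonneg fun x' _ => ?_
  linarith [GG_ge w (Nat.dist x x') h]

theorem Pi2_le_one (w y h : ℕ) (hw : 3 ≤ w) : Pi2 w y h ≤ 1 := by
  unfold Pi2
  refine prod_le_one (fun p hp => ?_) fun p _ => ?_
  · have h3 : (3:ℝ) < p := by exact_mod_cast lt_of_le_of_lt hw (mem_filter.1 hp).2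
    rw [sub_nonneg, div_le_one (by linarith)]
    split_ifs <;> push_cast <;> linarith
  · have : (0:ℝ) ≤ ((if p ∣ h then 1 else 2 : ℕ) : ℝ) / p := by positivity
    linarith

open Classical in
/-- The second moment. -/
theorem second {K x0 : ℕ} {ε : ℝ} (hε : 0 ≤ ε)
    (hs : Fu K x0 ε)
    (hprod : S_PROD) (w y n a h M : ℕ) (hw : 3 ≤ w) (h0 : x0 ≤ y) (hK : y ^ K ≤ n)
    (hh : 1 ≤ h) (P : Finset ℕ) :
    ∑ m ∈ Icc 1 M, (((P.filter (fun x => Ad w y a h m x)).card : ℝ) - P.card * Pi2 w y h) ^ 2 ≤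
      3 * P.card * ((1 + ε) * (M * Pi2 w y h) + √(n : ℝ)) +
      (1 + ε) * (M * Pi2 w y h ^ 2) * (SG w h P + P.card ^ 2) + P.card ^ 2 * √(n : ℝ) -
      2 * P.card ^ 2 * Pi2 w y h * ((1 - ε) * (M * Pi2 w y h) - √(n : ℝ)) +
      M * (P.card * Pi2 w y h) ^ 2 := by
  obtain ⟨Pp, hPp⟩ : ∃ Pp, Pp = Pi2 w y h := ⟨_, rfl⟩
  have hPp0 : 0 ≤ Pp := by
    rw [hPp]
    unfold Pi2
    refine prod_nonneg fun p hp => ?_
    have h3 : (3:ℝ) < p := by exact_mod_cast lt_of_le_of_lt hw (mem_filter.1 hp).2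
    rw [sub_nonneg, div_le_one (by linarith)]
    split_ifs <;> push_cast <;> linarith
  have hM0 : (0:ℝ) ≤ M := by positivity
  have hn0 : 0 ≤ √(n:ℝ) := Real.sqrt_nonneg _
  have c1 : ∀ x : ℕ, cn w y a M {(x:ℤ), (x:ℤ) - h} ≤ (1 + ε) * (M * Pp) + √(n:ℝ) := fun x => by
    have := (abs_le.1 (cn_one hs w y n a h x M hw h0 hK)).2
    rw [hPp]
    linarith
  have c1' : ∀ x : ℕ, (1 - ε) * (M * Pp) - √(n:ℝ) ≤ cn w y a M {(x:ℤ), (x:ℤ) - h} := fun x => by
    have := (abs_le.1 (cn_one hs w y n a h x M hw h0 hK)).1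
    rw [hPp]
    linarith
  have c2 : ∀ x x' : ℕ, x' ≠ x → Nat.dist x x' ≠ h →
      cn w y a M {(x:ℤ), (x:ℤ) - h, (x':ℤ), (x':ℤ) - h} ≤
      (1 + ε) * (M * (Pp ^ 2 * GG w (Nat.dist x x') h)) + √(n : ℝ) := fun x x' hx hd => by
    rw [hPp]
    exact cn_two hε hs hprod w y n a h x x' M hw h0 hK hh hx hd
  -- first moment
  have hN : ∀ m, ((P.filter (fun x => Ad w y a h m x)).card : ℝ) =
      ∑ x ∈ P, if Ad w y a h m x then (1:ℝ) else 0 := by
    intro m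
    rw [← sum_filter, sum_const, nsmul_eq_mul, mul_one]
  have m1 : ∑ m ∈ Icc 1 M, ((P.filter (fun x => Ad w y a h m x)).card : ℝ) =
      ∑ x ∈ P, cn w y a M {(x:ℤ), (x:ℤ) - h} := by
    simp only [hN]
    rw [sum_comm]
    refine sum_congr rfl fun x _ => ?_
    rw [← sum_filter, sum_const, nsmul_eq_mul, mul_one]
    unfold cn Ad
    congr!
  have m1' : P.card * ((1 - ε) * (M * Pp) - √(n:ℝ)) ≤
      ∑ m ∈ Icc 1 M, ((P.filter (fun x => Ad w y a h m x)).card : ℝ) := by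
    rw [m1]
    calc P.card * ((1 - ε) * (M * Pp) - √(n:ℝ)) = ∑ x ∈ P, ((1 - ε) * (M * Pp) - √(n:ℝ)) := by
          rw [sum_const, nsmul_eq_mul]
      _ ≤ _ := sum_le_sum fun x _ => c1' x
  -- second moment
  have m2 : ∑ m ∈ Icc 1 M, ((P.filter (fun x => Ad w y a h m x)).card : ℝ) ^ 2 =
      ∑ x ∈ P, ∑ x' ∈ P, cn w y a M {(x:ℤ), (x:ℤ) - h, (x':ℤ), (x':ℤ) - h} := by
    simp only [hN, sq, sum_mul_sum]
    rw [sum_comm]
    refine sum_congr rfl fun x _ => ?_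
    rw [sum_comm]
    refine sum_congr rfl fun x' _ => ?_
    unfold cn
    rw [← filter_congr (fun m _ => ad_and w y a h m x x')]
    rw [← sum_boole]
    refine sum_congr rfl fun m _ => ?_
    by_cases h1 : Ad w y a h m x <;> by_cases h2 : Ad w y a h m x' <;> simp [h1, h2]
  have m2' : ∀ x ∈ P, ∑ x' ∈ P, cn w y a M {(x:ℤ), (x:ℤ) - h, (x':ℤ), (x':ℤ) - h} ≤
      3 * ((1 + ε) * (M * Pp) + √(n:ℝ)) + (1 + ε) * (M * Pp ^ 2) *
        (∑ x' ∈ P.filter (fun x' => x' ≠ x ∧ Nat.dist x x' ≠ h), (GG w (Nat.dist x x') h - 1)) +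
        P.card * ((1 + ε) * (M * Pp ^ 2) + √(n:ℝ)) := by
    intro x hx
    rw [← sum_filter_add_sum_filter_not P (fun x' => x' ≠ x ∧ Nat.dist x x' ≠ h)]
    have b1 : ∑ x' ∈ P.filter (fun x' => x' ≠ x ∧ Nat.dist x x' ≠ h),
        cn w y a M {(x:ℤ), (x:ℤ) - h, (x':ℤ), (x':ℤ) - h} ≤ (1 + ε) * (M * Pp ^ 2) *
        (∑ x' ∈ P.filter (fun x' => x' ≠ x ∧ Nat.dist x x' ≠ h), (GG w (Nat.dist x x') h - 1)) +
        P.card * ((1 + ε) * (M * Pp ^ 2) + √(n:ℝ)) := by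
      calc ∑ x' ∈ P.filter (fun x' => x' ≠ x ∧ Nat.dist x x' ≠ h),
          cn w y a M {(x:ℤ), (x:ℤ) - h, (x':ℤ), (x':ℤ) - h}
          ≤ ∑ x' ∈ P.filter (fun x' => x' ≠ x ∧ Nat.dist x x' ≠ h),
            ((1 + ε) * (M * Pp ^ 2) * (GG w (Nat.dist x x') h - 1) +
              ((1 + ε) * (M * Pp ^ 2) + √(n:ℝ))) := by
            refine sum_le_sum fun x' hx' => ?_
            obtain ⟨_, h1, h2⟩ := mem_filter.1 hx'
            refine (c2 x x' h1 h2).trans (le_of_eq ?_)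
            ring
        _ = (1 + ε) * (M * Pp ^ 2) * (∑ x' ∈ P.filter (fun x' => x' ≠ x ∧ Nat.dist x x' ≠ h),
              (GG w (Nat.dist x x') h - 1)) +
            (P.filter (fun x' => x' ≠ x ∧ Nat.dist x x' ≠ h)).card *
              ((1 + ε) * (M * Pp ^ 2) + √(n:ℝ)) := by
            rw [sum_add_distrib, ← mul_sum, sum_const, nsmul_eq_mul]
        _ ≤ _ := by
            have h1 : ((P.filter (fun x' => x' ≠ x ∧ Nat.dist x x' ≠ h)).card : ℝ) ≤ P.card := by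
              exact_mod_cast card_filter_le _ _
            have h2 : 0 ≤ (1 + ε) * (M * Pp ^ 2) + √(n:ℝ) := by positivity
            have := mul_le_mul_of_nonneg_right h1 h2
            linarith
    have b2 : ∑ x' ∈ P.filter (fun x' => ¬ (x' ≠ x ∧ Nat.dist x x' ≠ h)),
        cn w y a M {(x:ℤ), (x:ℤ) - h, (x':ℤ), (x':ℤ) - h} ≤ 3 * ((1 + ε) * (M * Pp) + √(n:ℝ)) := by
      have hcard : (P.filter (fun x' => ¬ (x' ≠ x ∧ Nat.dist x x' ≠ h))).card ≤ 3 := by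
        have hsub : P.filter (fun x' => ¬ (x' ≠ x ∧ Nat.dist x x' ≠ h)) ⊆ {x, x + h, x - h} := by
          intro x' hx'
          have h1 := (mem_filter.1 hx').2
          simp only [mem_insert, mem_singleton]
          by_contra hcon
          push Not at hcon
          apply h1
          refine ⟨hcon.1, fun hd => ?_⟩
          rcases le_total x x' with hle | hle
          · rw [Nat.dist_eq_sub_of_le hle] at hd
            omega
          · rw [Nat.dist_eq_sub_of_le_right hle] at hd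
            omega
        exact (card_le_card hsub).trans card_le_three
      calc ∑ x' ∈ P.filter (fun x' => ¬ (x' ≠ x ∧ Nat.dist x x' ≠ h)),
          cn w y a M {(x:ℤ), (x:ℤ) - h, (x':ℤ), (x':ℤ) - h}
          ≤ ∑ x' ∈ P.filter (fun x' => ¬ (x' ≠ x ∧ Nat.dist x x' ≠ h)),
            ((1 + ε) * (M * Pp) + √(n:ℝ)) := by
            refine sum_le_sum fun x' _ => ?_
            refine le_trans ?_ (c1 x)
            unfold cn
            have : (Icc 1 M).filter (fun m : ℕ => ∀ p ∈ pz y,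
                ¬ QT w (WW w) a {(x:ℤ), (x:ℤ) - h, (x':ℤ), (x':ℤ) - h} p m) ⊆
                (Icc 1 M).filter (fun m : ℕ => ∀ p ∈ pz y,
                ¬ QT w (WW w) a {(x:ℤ), (x:ℤ) - h} p m) := by
              intro m hm
              rw [mem_filter] at hm ⊢
              exact ⟨hm.1, ((ad_and w y a h m x x').2 hm.2).1⟩
            exact_mod_cast card_le_card this
        _ = (P.filter (fun x' => ¬ (x' ≠ x ∧ Nat.dist x x' ≠ h))).card *
            ((1 + ε) * (M * Pp) + √(n:ℝ)) := by rw [sum_const, nsmul_eq_mul]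
        _ ≤ _ := mul_le_mul_of_nonneg_right (by exact_mod_cast hcard) (by positivity)
    linarith
  have m2'' : ∑ m ∈ Icc 1 M, ((P.filter (fun x => Ad w y a h m x)).card : ℝ) ^ 2 ≤
      3 * P.card * ((1 + ε) * (M * Pp) + √(n:ℝ)) + (1 + ε) * (M * Pp ^ 2) * SG w h P +
        P.card ^ 2 * ((1 + ε) * (M * Pp ^ 2) + √(n:ℝ)) := by
    rw [m2]
    refine (sum_le_sum m2').trans (le_of_eq ?_)
    rw [sum_add_distrib, sum_add_distrib, sum_const, sum_const, nsmul_eq_mul, nsmul_eq_mul, ← mul_sum]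
    unfold SG
    ring
  have expand : ∑ m ∈ Icc 1 M, (((P.filter (fun x => Ad w y a h m x)).card : ℝ) - P.card * Pp) ^ 2 =
      ∑ m ∈ Icc 1 M, ((P.filter (fun x => Ad w y a h m x)).card : ℝ) ^ 2 -
      2 * (P.card * Pp) * ∑ m ∈ Icc 1 M, ((P.filter (fun x => Ad w y a h m x)).card : ℝ) +
      M * (P.card * Pp) ^ 2 := by
    have : ∀ m ∈ Icc 1 M, (((P.filter (fun x => Ad w y a h m x)).card : ℝ) - P.card * Pp) ^ 2 =
        ((P.filter (fun x => Ad w y a h m x)).card : ℝ) ^ 2 -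
        2 * (P.card * Pp) * ((P.filter (fun x => Ad w y a h m x)).card : ℝ) +
        (P.card * Pp) ^ 2 := fun m _ => by ring
    rw [sum_congr rfl this, sum_add_distrib, sum_sub_distrib, ← mul_sum, sum_const, nsmul_eq_mul,
      Nat.card_Icc]
    simp
  rw [← hPp, expand]
  have h5 : 2 * (P.card * Pp) * (P.card * ((1 - ε) * (M * Pp) - √(n:ℝ))) ≤
      2 * (P.card * Pp) * ∑ m ∈ Icc 1 M, ((P.filter (fun x => Ad w y a h m x)).card : ℝ) :=
    mul_le_mul_of_nonneg_left m1' (by positivity)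
  nlinarith [h5, m2'']

theorem final_ineq {ε ε' c Pp L M s G B : ℝ} (hc : 1 ≤ c) (hP0 : 0 < Pp) (hP1 : Pp ≤ 1)
    (hM0 : 0 ≤ M) (hML : M ≤ 2 * L) (hs : 0 ≤ s) (hG : 0 ≤ G) (he0 : 0 ≤ ε') (he1 : ε' ≤ 1 / 3)
    (he2 : ε' ≤ ε / 48) (hbig : 48 * s ≤ L * Pp ^ 2 * ε)
    (hB : B * (c * Pp / 2) ^ 2 ≤ 3 * c * ((1 + ε') * (M * Pp) + s) +
      (1 + ε') * (M * Pp ^ 2) * (G + c ^ 2) + c ^ 2 * s -
      2 * c ^ 2 * Pp * ((1 - ε') * (M * Pp) - s) + M * (c * Pp) ^ 2) :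
    B ≤ L * (ε + 24 * G / c ^ 2 + 72 / (c * Pp)) := by
  have hc0 : 0 < c := by linarith
  have hcP : 0 < c * Pp := by positivity
  have hL0 : 0 ≤ L := by linarith
  have e1 : L * (ε + 24 * G / c ^ 2 + 72 / (c * Pp)) * (c * Pp / 2) ^ 2 =
      L * (ε * (c * Pp) ^ 2 / 4 + 6 * G * Pp ^ 2 + 18 * (c * Pp)) := by
    field_simp
    ring
  have hkey : B * (c * Pp / 2) ^ 2 ≤
      L * (ε + 24 * G / c ^ 2 + 72 / (c * Pp)) * (c * Pp / 2) ^ 2 := by
    rw [e1]
    refine hB.trans ?_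
    have t1 : 3 * c * ((1 + ε') * (M * Pp)) ≤ 8 * (L * (c * Pp)) := by
      have a1 : (1 + ε') * M ≤ 8 / 3 * L := by nlinarith
      have := mul_le_mul_of_nonneg_right a1 hcP.le
      nlinarith
    have t2 : (1 + ε') * (M * Pp ^ 2) * G ≤ 8 / 3 * (L * (G * Pp ^ 2)) := by
      have a1 : (1 + ε') * M ≤ 8 / 3 * L := by nlinarith
      have := mul_le_mul_of_nonneg_right a1 (show 0 ≤ G * Pp ^ 2 by positivity)
      nlinarith
    have t3 : 3 * ε' * (c ^ 2 * (M * Pp ^ 2)) ≤ L * (ε * (c * Pp) ^ 2 / 8) := by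
      have a1 : 3 * ε' * M ≤ L * (ε / 8) := by
        calc 3 * ε' * M ≤ 3 * (ε / 48) * (2 * L) := by
              refine mul_le_mul (by linarith) hML hM0 (by linarith)
          _ = L * (ε / 8) := by ring
      have := mul_le_mul_of_nonneg_right a1 (show 0 ≤ (c * Pp) ^ 2 by positivity)
      nlinarith
    have t4 : s * (3 * c + c ^ 2 + 2 * c ^ 2 * Pp) ≤ L * (ε * (c * Pp) ^ 2 / 8) := by
      have a1 : 3 * c + c ^ 2 + 2 * c ^ 2 * Pp ≤ 6 * c ^ 2 := by
        have b1 : c ≤ c ^ 2 := by nlinarith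
        have b2 : c ^ 2 * Pp ≤ c ^ 2 := by
          have := sq_nonneg c
          nlinarith
        nlinarith
      have a2 : s * (3 * c + c ^ 2 + 2 * c ^ 2 * Pp) ≤ s * (6 * c ^ 2) :=
        mul_le_mul_of_nonneg_left a1 hs
      have a3 := mul_le_mul_of_nonneg_right hbig (sq_nonneg c)
      nlinarith
    have t5 : 0 ≤ L * (G * Pp ^ 2) := by positivity
    have t6 : 0 ≤ L * (c * Pp) := by positivity
    nlinarith
  exact le_of_mul_le_mul_right hkey (by positivity)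

theorem t_var : S_PROD → S_VAR := by
  classical
  intro hprod ε hε
  have he' : 0 < min (ε / 48) (1 / 3) := by positivity
  obtain ⟨K1, x0, hK1, hs⟩ := sys_fund 4 (by norm_num) (min (ε / 48) (1 / 3)) he'
  have hs' : Fu K1 x0 (min (ε / 48) (1 / 3)) := by
    intro x y h1 h2 Q hQ X
    have := hs x y h1 h2 Q hQ X
    convert this using 3
  refine ⟨max K1 8, fun K hK w hw => ?_⟩
  have hWpos : 0 < WW w := by
    unfold WW
    exact prod_pos fun p hp => (mem_pz.1 hp).2.pos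
  obtain ⟨y0, hy0⟩ : ∃ y0, y0 = x0 + WW w + ⌈48 * (WW w : ℝ) / ε⌉₊ := ⟨_, rfl⟩
  refine ⟨y0 ^ K, fun n hn y hy1 hy2 α h A B hh hhn hAB hBn P hP hPne => ?_⟩
  have hyy : y0 ≤ y := by
    by_contra hcon
    push Not at hcon
    have h1 : (y + 1) ^ K ≤ y0 ^ K := Nat.pow_le_pow_left hcon K
    omega
  have hypos : 1 ≤ y := by omega
  have hyx : x0 ≤ y := by omega
  have hyW : WW w ≤ y := by omega
  have hyc : 48 * (WW w : ℝ) / ε ≤ y := by
    have h1 : ⌈48 * (WW w : ℝ) / ε⌉₊ ≤ y := by omega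
    exact (Nat.le_ceil _).trans (by exact_mod_cast h1)
  have hyK : y ^ K1 ≤ n := (Nat.pow_le_pow_right hypos (le_trans (le_max_left _ _) hK)).trans hy1
  have hy8 : y ^ 8 ≤ n := (Nat.pow_le_pow_right hypos (le_trans (le_max_right _ _) hK)).trans hy1
  have hnW : WW w ≤ n := by
    have : y ≤ y ^ 8 := Nat.le_self_pow (by norm_num) y
    omega
  obtain ⟨M, hM⟩ : ∃ M, M = n / WW w + 1 := ⟨_, rfl⟩
  have hW0 : (0:ℝ) < WW w := by exact_mod_cast hWpos
  have hML : (M : ℝ) ≤ 2 * ((n:ℝ) / WW w) := by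
    rw [hM]
    push_cast
    have h1 : ((n / WW w : ℕ) : ℝ) ≤ (n:ℝ) / WW w := Nat.cast_div_le
    have h2 : (1:ℝ) ≤ (n:ℝ) / WW w := by
      rw [le_div_iff₀ hW0, one_mul]
      exact_mod_cast hnW
    linarith
  have hy0' : (1:ℝ) ≤ y := by exact_mod_cast hypos
  have hPi : 1 / (y : ℝ) ≤ Pi2 w y h := hprod.2 w y h hw hypos
  have hPi0 : 0 < Pi2 w y h := lt_of_lt_of_le (by positivity) hPi
  -- the large size
  have hbig : 48 * √(n:ℝ) ≤ n / WW w * Pi2 w y h ^ 2 * ε := by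
    have h1 : ((y : ℝ) ^ 4) ≤ √(n:ℝ) := by
      apply Real.le_sqrt_of_sq_le
      have : ((y ^ 8 : ℕ) : ℝ) ≤ n := by exact_mod_cast hy8
      push_cast at this
      calc ((y:ℝ) ^ 4) ^ 2 = (y:ℝ) ^ 8 := by ring
        _ ≤ (n : ℝ) := this
    have h2 : 48 * (WW w : ℝ) * y ^ 2 ≤ ε * √(n:ℝ) := by
      rw [div_le_iff₀ hε] at hyc
      have h3 : 48 * (WW w : ℝ) ≤ y ^ 2 * ε := by nlinarith
      calc 48 * (WW w : ℝ) * y ^ 2 ≤ (y ^ 2 * ε) * y ^ 2 :=
            mul_le_mul_of_nonneg_right h3 (by positivity)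
        _ = ε * y ^ 4 := by ring
        _ ≤ ε * √(n:ℝ) := mul_le_mul_of_nonneg_left h1 hε.le
    have h4 : (1 / (y:ℝ)) ^ 2 ≤ Pi2 w y h ^ 2 := pow_le_pow_left₀ (by positivity) hPi 2
    have h5 : 48 * √(n:ℝ) ≤ n / WW w * (1 / (y:ℝ)) ^ 2 * ε := by
      have e : (n:ℝ) / WW w * (1 / (y:ℝ)) ^ 2 * ε = (n * ε) / (WW w * y ^ 2) := by
        field_simp
      rw [e, le_div_iff₀ (by positivity)]
      calc 48 * √(n:ℝ) * (WW w * y ^ 2) = (48 * (WW w : ℝ) * y ^ 2) * √(n:ℝ) := by ring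
        _ ≤ (ε * √(n:ℝ)) * √(n:ℝ) := mul_le_mul_of_nonneg_right h2 (Real.sqrt_nonneg _)
        _ = ε * (√(n:ℝ) * √(n:ℝ)) := by ring
        _ = n * ε := by rw [Real.mul_self_sqrt (by positivity)]; ring
    refine h5.trans ?_
    exact mul_le_mul_of_nonneg_right (mul_le_mul_of_nonneg_left h4 (by positivity)) hε.le
  -- transfer to m
  have hcard : (((Ioc A B).filter (fun a => a ≡ α [MOD WW w] ∧
      ((P.filter (fun x => Rgh y w a h x)).card : ℝ) ≤ P.card * Pi2 w y h / 2)).card : ℝ) ≤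
      (((Icc 1 M).filter (fun m => ((P.filter (fun x => Ad w y (α % WW w) h m x)).card : ℝ) ≤
        P.card * Pi2 w y h / 2)).card : ℝ) := by
    have : ((Ioc A B).filter (fun a => a ≡ α [MOD WW w] ∧
      ((P.filter (fun x => Rgh y w a h x)).card : ℝ) ≤ P.card * Pi2 w y h / 2)).card ≤
      ((Icc 1 M).filter (fun m => ((P.filter (fun x => Ad w y (α % WW w) h m x)).card : ℝ) ≤
        P.card * Pi2 w y h / 2)).card := by
      refine card_le_card_of_injOn (fun a => a / WW w + 1) (fun a ha => ?_) fun a ha b hb hab => ?_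
      · rw [mem_coe, mem_filter, mem_Ioc] at ha
        obtain ⟨⟨_, h2⟩, h3, h4⟩ := ha
        rw [mem_coe, mem_filter, mem_Icc]
        refine ⟨⟨Nat.le_add_left 1 _, ?_⟩, ?_⟩
        · rw [hM]
          exact Nat.succ_le_succ (Nat.div_le_div_right (h2.trans hBn))
        · have e : P.filter (fun x => Ad w y (α % WW w) h (a / WW w + 1) x) =
              P.filter (fun x => Rgh y w a h x) :=
            filter_congr fun x _ => ad_rgh w y α h a x h3
          rw [e]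
          exact h4
      · rw [mem_coe, mem_filter] at ha hb
        have h1 : a % WW w = b % WW w := (ha.2.1).trans (hb.2.1).symm
        have h2 : a / WW w = b / WW w := Nat.succ_injective hab
        rw [← Nat.div_add_mod a (WW w), ← Nat.div_add_mod b (WW w), h1, h2]
    exact_mod_cast this
  refine hcard.trans ?_
  have hc1 : (1:ℝ) ≤ P.card := by
    have := hPne.card_pos
    exact_mod_cast this
  refine final_ineq (M := M) (s := √(n:ℝ)) hc1 hPi0 (Pi2_le_one w y h hw) (by positivity) hML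
    (Real.sqrt_nonneg _) (SG_nonneg w h P) he'.le (min_le_right _ _) (min_le_left _ _) hbig ?_
  refine le_trans ?_ (second he'.le hs' hprod w y n (α % WW w) h M hw hyx hyK hh P)
  calc (((Icc 1 M).filter (fun m => ((P.filter (fun x => Ad w y (α % WW w) h m x)).card : ℝ) ≤
        P.card * Pi2 w y h / 2)).card : ℝ) * (P.card * Pi2 w y h / 2) ^ 2
      = ∑ m ∈ (Icc 1 M).filter (fun m => ((P.filter (fun x => Ad w y (α % WW w) h m x)).card : ℝ) ≤
        P.card * Pi2 w y h / 2), (P.card * Pi2 w y h / 2) ^ 2 := by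
        rw [sum_const, nsmul_eq_mul]
    _ ≤ ∑ m ∈ (Icc 1 M).filter (fun m => ((P.filter (fun x => Ad w y (α % WW w) h m x)).card : ℝ) ≤
        P.card * Pi2 w y h / 2),
          (((P.filter (fun x => Ad w y (α % WW w) h m x)).card : ℝ) - P.card * Pi2 w y h) ^ 2 := by
        refine sum_le_sum fun m hm => ?_
        have h1 := (mem_filter.1 hm).2
        have h2 : 0 ≤ (P.card : ℝ) * Pi2 w y h / 2 := by positivity
        have h3 : (P.card : ℝ) * Pi2 w y h / 2 ≤ P.card * Pi2 w y h -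
          ((P.filter (fun x => Ad w y (α % WW w) h m x)).card : ℝ) := by linarith
        calc (P.card * Pi2 w y h / 2) ^ 2 ≤ (P.card * Pi2 w y h -
          ((P.filter (fun x => Ad w y (α % WW w) h m x)).card : ℝ)) ^ 2 := pow_le_pow_left₀ h2 h3 2
          _ = _ := by ring
    _ ≤ _ := by
        refine sum_le_sum_of_subset_of_nonneg (filter_subset _ _) fun m _ _ => sq_nonneg _

end Pool.Agent.P8H7.GM
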